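import Mathlib
import Pool.Agent.N290.RJ.Defs
import Pool.Agent.N290.RJ.Stm
import Pool.Agent.N290.RJ.Stm3
import Pool.Agent.N290.RJ.Un
import Pool.Agent.N87.RJ.S4
import Pool.Agent.N704.RJ.S2S3
import Pool.Agent.N655.RJ.LA1
import Pool.Agent.Helper540.Holo

/-!
# Project RJ (helper290), part EU (helper681): the radial derivative controls the invariant gradient

The estimate of the pieces follows part S4 (helper87).
-/

set_option autoImplicit false

open Complex MeasureTheory Set Filter Topology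

namespace Pool.Agent.N681.RJ

open Pool.Agent.N290.RJ Pool.Agent.N87.RJ

variable {d : ℕ}

/-! ### calculus along lines -/

theorem line_deriv (z ξ : E d) (t : ℝ) (lam : ℂ) :
    HasDerivAt (fun lam : ℂ => t • (z + lam • ξ)) (t • ξ) lam := by
  have h2 : HasDerivAt (fun lam : ℂ => z + lam • ξ) ((1 : ℂ) • ξ) lam :=
    ((hasDerivAt_id lam).smul_const ξ).const_add z
  rw [one_smul] at h2
  exact h2.const_smul t

theorem comp_line {f : E d → ℂ} (hf : DifferentiableOn ℂ f (B d)) (z ξ : E d) (t : ℝ) (lam : ℂ)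
    (h : t • (z + lam • ξ) ∈ B d) :
    HasDerivAt (fun lam : ℂ => f (t • (z + lam • ξ)))
      (fderiv ℂ f (t • (z + lam • ξ)) (t • ξ)) lam :=
  (hf.differentiableAt (B_open.mem_nhds h)).hasFDerivAt.comp_hasDerivAt lam (line_deriv z ξ t lam)

/-- the radial derivative in the other normalisation -/
theorem rad_est {f : E d → ℂ} {ω : ℝ → ℝ}
    (hfω : ∀ z ∈ B d, (1 - nm z) * ‖fderiv ℂ f z z‖ ≤ ω (1 - nm z))
    {v w : E d} {s : ℂ} (hv : v = s • w) (hs : s ≠ 0) (hB : v ∈ B d) :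
    ‖fderiv ℂ f v w‖ ≤ ω (1 - nm v) / ((1 - nm v) * ‖s‖) := by
  have h1 : 0 < 1 - nm v := sub_pos.2 (mem_B_nm.1 hB)
  have h2 : 0 < ‖s‖ := norm_pos_iff.2 hs
  have h3 : fderiv ℂ f v v = s * fderiv ℂ f v w := by
    conv_lhs => rw [show fderiv ℂ f v v = fderiv ℂ f v (s • w) by rw [← hv]]
    rw [map_smul, smul_eq_mul]
  have h4 := hfω v hB
  rw [h3, norm_mul] at h4
  rw [le_div_iff₀ (by positivity)]
  linarith

/-- the estimate of one piece -/
theorem piece {K : ℝ} (hK : 1 ≤ K) {f : E d → ℂ} {ω : ℝ → ℝ} (hf : DifferentiableOn ℂ f (B d))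
    (hω : Slow K ω) (hfω : ∀ z ∈ B d, (1 - nm z) * ‖fderiv ℂ f z z‖ ≤ ω (1 - nm z))
    {z : E d} (hz : z ∈ B d) {t0 t1 : ℝ} (h0 : 1 / 2 ≤ t0) (h01 : t0 ≤ t1) (h1 : t1 < 1)
    (hd : t1 - t0 ≤ 1 - t1) (ξ : E d) :
    ‖fderiv ℂ f (t1 • z) (t1 • ξ) - fderiv ℂ f (t0 • z) (t0 • ξ)‖ ≤
      120 * K * ω (1 - N (t1 • z)) * ((t1 - t0) / (1 - N (t1 • z))) * len (t1 • z) ξ := by
  have h0' : 0 ≤ t0 := by linarith
  have hz1 : t1 • z ∈ B d := smul_mem_B hz (h0'.trans h01) h1.le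
  have ha1 : 0 < 1 - N (t1 • z) := sub_pos.2 hz1
  have hω0 : 0 ≤ ω (1 - N (t1 • z)) := (hω.2.1 _).1
  rcases (len_nonneg (t1 • z) ξ).eq_or_lt with hl | hl
  · have h2 : len2 (t1 • z) ξ = 0 := by
      rw [← len_sq hz1, ← hl]; norm_num
    have h3 : N ξ = 0 := by
      unfold len2 at h2
      have h4 : 0 ≤ ‖ip ξ (t1 • z)‖ ^ 2 / (1 - N (t1 • z)) ^ 2 := by positivity
      have h5 : N ξ / (1 - N (t1 • z)) ≤ 0 := by linarith
      rw [div_le_iff₀ ha1, zero_mul] at h5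
      exact le_antisymm h5 (N_nonneg _)
    have h4 : ξ = 0 := eq_zero_of_N h3
    rw [← hl, h4]
    simp
  obtain ⟨l, hll⟩ : ∃ l, l = len (t1 • z) ξ := ⟨_, rfl⟩
  have hgeo := fun (lam : ℂ) (hlam : ‖lam‖ ≤ 1 / (5 * l)) (t : ℝ) (ht0 : t0 ≤ t) (ht1 : t ≤ t1) =>
    geo hz h0' h01 h1 hd hl (lam := lam) (by rw [← hll]; exact hlam) ht0 ht1
  rw [← hll] at hl ⊢
  obtain ⟨a, haa⟩ : ∃ a, a = 1 - N (t1 • z) := ⟨_, rfl⟩
  rw [← haa] at ha1 hω0 hgeo ⊢
  have hmem : ∀ lam : ℂ, ‖lam‖ ≤ 1 / (5 * l) → ∀ t : ℝ, t0 ≤ t → t ≤ t1 →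
      t • (z + lam • ξ) ∈ B d := by
    intro lam hlam t ht0 ht1
    have := (hgeo lam hlam t ht0 ht1).1
    rw [mem_B]
    linarith
  have hR : 0 < 1 / (5 * l) := by positivity
  obtain ⟨G, hG⟩ : ∃ G : ℂ → ℂ, G = fun lam => f (t1 • (z + lam • ξ)) - f (t0 • (z + lam • ξ)) :=
    ⟨_, rfl⟩
  have hder := fun (t : ℝ) (lam : ℂ) (h : t • (z + lam • ξ) ∈ B d) => comp_line hf z ξ t lam h
  have hGd : deriv G 0 = fderiv ℂ f (t1 • z) (t1 • ξ) - fderiv ℂ f (t0 • z) (t0 • ξ) := by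
    have h2 := hder t1 0 (hmem 0 (by rw [norm_zero]; exact hR.le) t1 h01 le_rfl)
    have h3 := hder t0 0 (hmem 0 (by rw [norm_zero]; exact hR.le) t0 le_rfl h01)
    have h4 := (h2.sub h3).deriv
    rw [zero_smul, add_zero] at h4
    rw [hG, ← h4]
    rfl
  have hGdiff : DiffContOnCl ℂ G (Metric.ball 0 (1 / (5 * l))) := by
    have h2 : DifferentiableOn ℂ G (Metric.closedBall 0 (1 / (5 * l))) := by
      intro lam hlam
      rw [mem_closedBall_zero_iff] at hlam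
      rw [hG]
      exact ((hder t1 lam (hmem lam hlam t1 h01 le_rfl)).sub
        (hder t0 lam (hmem lam hlam t0 le_rfl h01))).differentiableAt.differentiableWithinAt
    exact h2.diffContOnCl_ball (subset_refl _)
  obtain ⟨M, hM⟩ : ∃ M, M = 24 * K * ω a / a * (t1 - t0) := ⟨_, rfl⟩
  have hbound : ∀ lam ∈ Metric.sphere (0 : ℂ) (1 / (5 * l)), ‖G lam‖ ≤ M := by
    intro lam hlam
    rw [mem_sphere_zero_iff_norm] at hlam
    have hlam' := hlam.le
    obtain ⟨w, hw⟩ : ∃ w, w = z + lam • ξ := ⟨_, rfl⟩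
    have hG2 : ‖G lam‖ ≤ (24 * K * ω a / a) * ‖t1 - t0‖ := by
      rw [hG]
      change ‖f (t1 • (z + lam • ξ)) - f (t0 • (z + lam • ξ))‖ ≤ _
      rw [← hw]
      refine Convex.norm_image_sub_le_of_norm_hasDerivWithin_le (𝕜 := ℝ)
        (f := fun t : ℝ => f (t • w)) (f' := fun t : ℝ => fderiv ℂ f (t • w) w)
        (s := Icc t0 t1) ?_ ?_ (convex_Icc _ _) ⟨le_rfl, h01⟩ ⟨h01, le_rfl⟩
      · intro t ht
        have h2 : t • w ∈ B d := by rw [hw]; exact hmem lam hlam' t ht.1 ht.2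
        have h3 : HasDerivAt (fun t : ℝ => t • w) w t := by
          have := (hasDerivAt_id t).smul_const w
          rwa [one_smul] at this
        exact (((hf.differentiableAt (B_open.mem_nhds h2)).hasFDerivAt.restrictScalars
          ℝ).comp_hasDerivAt t h3).hasDerivWithinAt
      · intro t ht
        have h2 : t • w ∈ B d := by rw [hw]; exact hmem lam hlam' t ht.1 ht.2
        have h3 := hgeo lam hlam' t ht.1 ht.2
        rw [← hw] at h3
        have ht2 : 1 / 2 ≤ t := h0.trans ht.1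
        have hpos : 0 < 1 - N (t • w) := sub_pos.2 h2
        have hnm1 : 0 < 1 - nm (t • w) := sub_pos.2 (mem_B_nm.1 h2)
        have hnm0 := nm_nonneg (t • w)
        have hNN : 1 - N (t • w) = (1 - nm (t • w)) * (1 + nm (t • w)) := by
          rw [← nm_sq]; ring
        have h4 : ω (1 - nm (t • w)) ≤ 3 * K * ω a := by
          have h5 : ω (1 - nm (t • w)) ≤ ω (1 - N (t • w)) := hω.1 (by nlinarith)
          exact h5.trans (omega_le hK hω ha1 (by have := N_nonneg (t • w); linarith) h3.2)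
        have h6 : a / 4 ≤ 1 - nm (t • w) := by nlinarith [h3.1]
        have h7 := rad_est hfω (v := t • w) (w := w) (s := (t : ℂ)) (smul_real t w)
          (by
            intro h8
            have : t = 0 := by exact_mod_cast h8
            linarith) h2
        refine h7.trans ?_
        rw [Complex.norm_real, Real.norm_eq_abs, abs_of_nonneg (by linarith : 0 ≤ t)]
        calc ω (1 - nm (t • w)) / ((1 - nm (t • w)) * t) ≤ (3 * K * ω a) / ((a / 4) * (1 / 2)) := by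
              apply div_le_div₀ (by positivity) h4 (by positivity)
              exact mul_le_mul h6 ht2 (by norm_num) hnm1.le
          _ = 24 * K * ω a / a := by field_simp; ring
    rwa [Real.norm_eq_abs, abs_of_nonneg (sub_nonneg.2 h01), ← hM] at hG2
  have hfin := Complex.norm_deriv_le_of_forall_mem_sphere_norm_le hR hGdiff hbound
  rw [hGd] at hfin
  refine hfin.trans_eq ?_
  rw [hM]
  field_simp
  ring

/-! ### near the centre -/

theorem nm_smulc (s : ℂ) (z : E d) : nm (s • z) = ‖s‖ * nm z := by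
  unfold nm
  rw [N_smulc, Real.sqrt_mul (sq_nonneg _), Real.sqrt_sq (norm_nonneg _)]

/-- bound of the function near the centre -/
theorem near0 {K : ℝ} {f : E d → ℂ} {ω : ℝ → ℝ} (hf : DifferentiableOn ℂ f (B d))
    (hω : Slow K ω) (hfω : ∀ z ∈ B d, (1 - nm z) * ‖fderiv ℂ f z z‖ ≤ ω (1 - nm z))
    {v : E d} (hv : nm v ≤ 5 / 8) : ‖f v - f 0‖ ≤ 4 * ω 1 := by
  have hω1 : 0 ≤ ω 1 := (hω.2.1 1).1
  obtain ⟨U, hU⟩ : ∃ U : Set ℂ, U = {s : ℂ | s • v ∈ B d} := ⟨_, rfl⟩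
  have hUo : IsOpen U := by
    rw [hU]
    exact B_open.preimage (continuous_id.smul continuous_const)
  have hsub : Metric.closedBall (0 : ℂ) (6 / 5) ⊆ U := by
    intro s hs
    rw [mem_closedBall_zero_iff] at hs
    rw [hU]
    change s • v ∈ B d
    rw [mem_B_nm, nm_smulc]
    have := nm_nonneg v
    nlinarith [norm_nonneg s]
  obtain ⟨h, hh⟩ : ∃ h : ℂ → ℂ, h = fun s => f (s • v) := ⟨_, rfl⟩
  have hder : ∀ s ∈ U, HasDerivAt h (fderiv ℂ f (s • v) v) s := by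
    intro s hs
    rw [hU] at hs
    have hs' : s • v ∈ B d := hs
    have h2 : HasDerivAt (fun s : ℂ => s • v) v s := by
      have := (hasDerivAt_id s).smul_const v
      rwa [one_smul] at this
    rw [hh]
    exact (hf.differentiableAt (B_open.mem_nhds hs')).hasFDerivAt.comp_hasDerivAt s h2
  have hhd : DifferentiableOn ℂ h U := fun s hs => (hder s hs).differentiableAt.differentiableWithinAt
  have hdd : DifferentiableOn ℂ (deriv h) U := hhd.deriv hUo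
  have hcl : DiffContOnCl ℂ (deriv h) (Metric.ball 0 (6 / 5)) :=
    (hdd.mono hsub).diffContOnCl_ball (subset_refl _)
  have hbd : ∀ s ∈ Metric.closedBall (0 : ℂ) (6 / 5), ‖deriv h s‖ ≤ 4 * ω 1 := by
    intro s hs
    apply Complex.norm_le_of_forall_mem_frontier_norm_le Metric.isBounded_ball hcl
    · intro s' hs'
      rw [frontier_ball _ (by norm_num), mem_sphere_zero_iff_norm] at hs'
      have hs0 : s' ≠ 0 := by
        rw [← norm_pos_iff, hs']; norm_num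
      have hsU : s' ∈ U := hsub (by rw [mem_closedBall_zero_iff, hs'])
      have hB : s' • v ∈ B d := by rw [hU] at hsU; exact hsU
      rw [(hder s' hsU).deriv]
      refine (rad_est hfω (v := s' • v) (w := v) (s := s') rfl hs0 hB).trans ?_
      have h3 : nm (s' • v) ≤ 3 / 4 := by
        rw [nm_smulc, hs']; linarith
      have h4 := nm_nonneg (s' • v)
      have h5 : ω (1 - nm (s' • v)) ≤ ω 1 := hω.1 (by linarith)
      rw [hs']
      rw [div_le_iff₀ (by nlinarith)]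
      nlinarith
    · rw [closure_ball _ (by norm_num)]
      exact hs
  have hconv : Convex ℝ (Metric.closedBall (0 : ℂ) (6 / 5)) := convex_closedBall _ _
  have hres := Convex.norm_image_sub_le_of_norm_deriv_le (𝕜 := ℂ) (f := h) (C := 4 * ω 1)
    (s := Metric.closedBall (0 : ℂ) (6 / 5)) (x := 0) (y := 1)
    (fun s hs => (hder s (hsub hs)).differentiableAt) hbd hconv
    (by rw [mem_closedBall_zero_iff]; norm_num) (by rw [mem_closedBall_zero_iff]; norm_num)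
  rw [hh] at hres
  simpa using hres

/-- bound of the derivative near the centre -/
theorem near1 {K : ℝ} {f : E d → ℂ} {ω : ℝ → ℝ} (hf : DifferentiableOn ℂ f (B d))
    (hω : Slow K ω) (hfω : ∀ z ∈ B d, (1 - nm z) * ‖fderiv ℂ f z z‖ ≤ ω (1 - nm z))
    {w : E d} (hw : nm w ≤ 1 / 2) (η : E d) : ‖fderiv ℂ f w η‖ ≤ 32 * ω 1 * nm η := by
  have hω1 : 0 ≤ ω 1 := (hω.2.1 1).1
  rcases (nm_nonneg η).eq_or_lt with h0 | h0
  · have h1 : N η = 0 := by rw [← nm_sq, ← h0]; norm_num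
    rw [eq_zero_of_N h1, map_zero, norm_zero]
    have := nm_nonneg (0 : E d)
    positivity
  have hr : 0 < 1 / (8 * nm η) := by positivity
  have hn : ∀ lam : ℂ, ‖lam‖ ≤ 1 / (8 * nm η) → nm (w + lam • η) ≤ 5 / 8 := by
    intro lam hlam
    refine (Pool.Agent.N655.RJ.nm_add _ _).trans ?_
    rw [nm_smulc]
    have : ‖lam‖ * nm η ≤ 1 / (8 * nm η) * nm η := mul_le_mul_of_nonneg_right hlam h0.le
    have h2 : 1 / (8 * nm η) * nm η = 1 / 8 := by field_simp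
    linarith
  have hmem : ∀ lam : ℂ, ‖lam‖ ≤ 1 / (8 * nm η) → (1 : ℝ) • (w + lam • η) ∈ B d := by
    intro lam hlam
    rw [one_smul, mem_B_nm]
    have := hn lam hlam
    linarith
  obtain ⟨G, hG⟩ : ∃ G : ℂ → ℂ, G = fun lam => f ((1 : ℝ) • (w + lam • η)) - f 0 := ⟨_, rfl⟩
  have hder : ∀ lam : ℂ, ‖lam‖ ≤ 1 / (8 * nm η) →
      HasDerivAt G (fderiv ℂ f ((1 : ℝ) • (w + lam • η)) ((1 : ℝ) • η)) lam := by
    intro lam hlam
    rw [hG]
    exact (comp_line hf w η 1 lam (hmem lam hlam)).sub_const _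
  have hGd : deriv G 0 = fderiv ℂ f w η := by
    have h2 := (hder 0 (by rw [norm_zero]; exact hr.le)).deriv
    rw [h2, zero_smul, add_zero, one_smul, one_smul]
  have hGdiff : DiffContOnCl ℂ G (Metric.ball 0 (1 / (8 * nm η))) := by
    have h2 : DifferentiableOn ℂ G (Metric.closedBall 0 (1 / (8 * nm η))) := by
      intro lam hlam
      rw [mem_closedBall_zero_iff] at hlam
      exact (hder lam hlam).differentiableAt.differentiableWithinAt
    exact h2.diffContOnCl_ball (subset_refl _)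
  have hbound : ∀ lam ∈ Metric.sphere (0 : ℂ) (1 / (8 * nm η)), ‖G lam‖ ≤ 4 * ω 1 := by
    intro lam hlam
    rw [mem_sphere_zero_iff_norm] at hlam
    rw [hG]
    simp only [one_smul]
    exact near0 hf hω hfω (hn lam hlam.le)
  have hfin := Complex.norm_deriv_le_of_forall_mem_sphere_norm_le hr hGdiff hbound
  rw [hGd] at hfin
  refine hfin.trans_eq ?_
  field_simp
  ring

/-! ### the telescoping sum -/

/-- the potential -/
noncomputable def psi (x δ : ℝ) : ℝ := (x / (x + δ)) ^ (1 / 4 : ℝ)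

theorem psi_nonneg {x δ : ℝ} (hx : 0 < x) (hδ : 0 ≤ δ) : 0 ≤ psi x δ := by
  unfold psi; positivity

theorem psi_le {x δ : ℝ} (hx : 0 < x) (hδ : 0 ≤ δ) : psi x δ ≤ 1 := by
  unfold psi
  apply Real.rpow_le_one (by positivity) _ (by norm_num)
  rw [div_le_one (by positivity)]
  linarith

theorem psi_pow {x δ : ℝ} (hx : 0 < x) (hδ : 0 ≤ δ) : psi x δ ^ 4 = x / (x + δ) := by
  have h : 0 ≤ x / (x + δ) := by positivity
  unfold psi
  rw [← Real.rpow_natCast, ← Real.rpow_mul h]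
  norm_num

theorem psi_mono {x δ δ' : ℝ} (hx : 0 < x) (hδ : 0 ≤ δ) (h : δ ≤ δ') : psi x δ' ≤ psi x δ := by
  have hδ' : 0 ≤ δ' := hδ.trans h
  unfold psi
  apply Real.rpow_le_rpow (by positivity) _ (by norm_num)
  apply div_le_div_of_nonneg_left hx.le (by positivity)
  linarith

theorem psi_step {x δ : ℝ} (hx : 0 < x) (hδ : 0 ≤ δ) :
    δ / (x + δ) * psi x δ ≤ 8 * (psi x (δ / 2) - psi x δ) := by
  obtain ⟨A, hA⟩ : ∃ A, A = psi x δ := ⟨_, rfl⟩
  obtain ⟨B', hB⟩ : ∃ B', B' = psi x (δ / 2) := ⟨_, rfl⟩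
  have hδ2 : 0 ≤ δ / 2 := by positivity
  have hA0 : 0 ≤ A := hA ▸ psi_nonneg hx hδ
  have hAB : A ≤ B' := by rw [hA, hB]; exact psi_mono hx hδ2 (by linarith)
  have hA4 : A ^ 4 = x / (x + δ) := by rw [hA, psi_pow hx hδ]
  have hB4 : B' ^ 4 = x / (x + δ / 2) := by rw [hB, psi_pow hx hδ2]
  have hBpos : 0 < B' := by
    rw [hB]; unfold psi; positivity
  rw [← hA, ← hB]
  have h1 : B' ^ 4 - A ^ 4 = B' ^ 4 * ((δ / 2) / (x + δ)) := by
    rw [hA4, hB4]; field_simp; ring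
  have h2 : B' ^ 4 - A ^ 4 ≤ 4 * B' ^ 3 * (B' - A) := by
    have e : B' ^ 4 - A ^ 4 = (B' ^ 3 + B' ^ 2 * A + B' * A ^ 2 + A ^ 3) * (B' - A) := by ring
    rw [e]
    apply mul_le_mul_of_nonneg_right _ (by linarith)
    have k1 : B' ^ 2 * A ≤ B' ^ 3 := by nlinarith [mul_le_mul_of_nonneg_left hAB (sq_nonneg B')]
    have k2 : A ^ 2 ≤ B' ^ 2 := pow_le_pow_left₀ hA0 hAB 2
    have k3 : A ^ 3 ≤ B' ^ 3 := pow_le_pow_left₀ hA0 hAB 3
    nlinarith
  have h3 : B' ^ 3 * (B' * ((δ / 2) / (x + δ))) ≤ B' ^ 3 * (4 * (B' - A)) := by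
    calc B' ^ 3 * (B' * ((δ / 2) / (x + δ))) = B' ^ 4 * ((δ / 2) / (x + δ)) := by ring
      _ = B' ^ 4 - A ^ 4 := h1.symm
      _ ≤ 4 * B' ^ 3 * (B' - A) := h2
      _ = B' ^ 3 * (4 * (B' - A)) := by ring
  have h4 := le_of_mul_le_mul_left h3 (by positivity)
  have h5 : δ / (x + δ) * A ≤ δ / (x + δ) * B' := mul_le_mul_of_nonneg_left hAB (by positivity)
  have h6 : B' * ((δ / 2) / (x + δ)) = δ / (x + δ) * B' / 2 := by ring
  linarith

/-- the estimate of one dyadic piece -/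
theorem piece' {K : ℝ} (hK : 1 ≤ K) {f : E d → ℂ} {ω : ℝ → ℝ} (hf : DifferentiableOn ℂ f (B d))
    (hω : Slow K ω) (hfω : ∀ z ∈ B d, (1 - nm z) * ‖fderiv ℂ f z z‖ ≤ ω (1 - nm z))
    {z : E d} (hz : z ∈ B d) (ξ : E d) {δ : ℝ} (hδ : 0 < δ) (hδ1 : δ ≤ 1 / 4) :
    ‖fderiv ℂ f ((1 - δ) • z) ((1 - δ) • ξ) - fderiv ℂ f ((1 - 2 * δ) • z) ((1 - 2 * δ) • ξ)‖ ≤
      5760 * K ^ 2 * ω (1 - N z) * len z ξ * (psi (1 - nm z) (δ / 2) - psi (1 - nm z) δ) := by
  have hP := piece hK hf hω hfω hz (t0 := 1 - 2 * δ) (t1 := 1 - δ) (by linarith) (by linarith)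
    (by linarith) (by linarith) ξ
  refine hP.trans ?_
  obtain ⟨n, hn⟩ : ∃ n, n = nm z := ⟨_, rfl⟩
  have hn0 : 0 ≤ n := hn ▸ nm_nonneg z
  have hn1 : n < 1 := hn ▸ (mem_B_nm.1 hz)
  have hS := (Pool.Agent.N704.RJ.S2 d z hz (1 - δ) (by linarith) (by linarith)).1 ξ
  have e1 : 1 - N ((1 - δ) • z) = 1 - (1 - δ) ^ 2 * n ^ 2 := by rw [N_smul, ← nm_sq, ← hn]
  have e2 : 1 - N z = 1 - n ^ 2 := by rw [← nm_sq, ← hn]
  rw [e1, e2, ← hn] at *
  obtain ⟨x, hx⟩ : ∃ x, x = 1 - n := ⟨_, rfl⟩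
  obtain ⟨ρ, hρ⟩ : ∃ ρ, ρ = 1 - (1 - δ) * n := ⟨_, rfl⟩
  rw [← hx, ← hρ] at hS
  rw [← hx]
  have hx0 : 0 < x := by linarith
  have hρx : x ≤ ρ := by rw [hx, hρ]; nlinarith
  have hρδ : δ ≤ ρ := by rw [hρ]; nlinarith
  have hρ0 : 0 < ρ := by linarith
  have hρσ : (x + δ) / 2 ≤ ρ := by linarith
  obtain ⟨a, ha⟩ : ∃ a, a = 1 - (1 - δ) ^ 2 * n ^ 2 := ⟨_, rfl⟩
  obtain ⟨X, hX⟩ : ∃ X, X = 1 - n ^ 2 := ⟨_, rfl⟩
  rw [← ha, ← hX]
  have haρ : ρ ≤ a := by
    rw [hρ, ha]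
    have : 0 ≤ (1 - δ) * n := mul_nonneg (by linarith) hn0
    have : (1 - δ) * n ≤ 1 := by nlinarith
    nlinarith
  have hX0 : 0 < X := by rw [hX]; nlinarith
  have hXa : X ≤ a := by
    rw [hX, ha]
    have : (1 - δ) ^ 2 ≤ 1 := pow_le_one₀ (by linarith) (by linarith)
    nlinarith [sq_nonneg n]
  have ha1 : a ≤ 1 := by rw [ha]; nlinarith [mul_nonneg (sq_nonneg (1 - δ)) (sq_nonneg n)]
  have ha0 : 0 < a := by linarith
  have hω0 : 0 ≤ ω X := (hω.2.1 _).1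
  have hl0 := len_nonneg z ξ
  -- the ratio
  have hratio : a / X ≤ ρ / x := by
    rw [div_le_div_iff₀ hX0 hx0, ha, hX, hρ, hx]
    have f1 : (1 - (1 - δ) ^ 2 * n ^ 2) * (1 - n) = ((1 - (1 - δ) * n) * (1 - n)) * (1 + (1 - δ) * n) := by ring
    have f2 : (1 - (1 - δ) * n) * (1 - n ^ 2) = ((1 - (1 - δ) * n) * (1 - n)) * (1 + n) := by ring
    rw [f1, f2]
    apply mul_le_mul_of_nonneg_left
    · nlinarith
    · rw [← hρ, ← hx]; positivity
  have hωa : ω a ≤ K * (ρ / x) ^ (1 / 8 : ℝ) * ω X := by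
    refine (hω.2.2 a X hX0 hXa ha1).trans ?_
    apply mul_le_mul_of_nonneg_right _ hω0
    apply mul_le_mul_of_nonneg_left _ (by linarith)
    exact Real.rpow_le_rpow (by positivity) hratio (by norm_num)
  -- powers
  obtain ⟨u, hu⟩ : ∃ u, u = x / ρ := ⟨_, rfl⟩
  have hu0 : 0 < u := by rw [hu]; positivity
  have hu1 : u ≤ 1 := by rw [hu, div_le_one hρ0]; exact hρx
  have hinv : ρ / x = u⁻¹ := by rw [hu, inv_div]
  have hpow : (ρ / x) ^ (1 / 8 : ℝ) * Real.sqrt (x / ρ) ≤ 2 * psi x δ := by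
    rw [hinv, ← hu, Real.inv_rpow hu0.le, ← Real.rpow_neg hu0.le, Real.sqrt_eq_rpow,
      ← Real.rpow_add hu0]
    have g1 : u ^ (-(1 / 8) + 1 / 2 : ℝ) ≤ u ^ (1 / 4 : ℝ) :=
      Real.rpow_le_rpow_of_exponent_ge hu0 hu1 (by norm_num)
    have g2 : u ≤ 16 * (x / (x + δ)) := by
      rw [hu, div_le_iff₀ hρ0]
      have : x = 16 * (x / (x + δ)) * ((x + δ) / 16) := by field_simp
      calc x = 16 * (x / (x + δ)) * ((x + δ) / 16) := this
        _ ≤ 16 * (x / (x + δ)) * ρ := by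
            apply mul_le_mul_of_nonneg_left _ (by positivity)
            linarith
    have g3 : u ^ (1 / 4 : ℝ) ≤ (16 * (x / (x + δ))) ^ (1 / 4 : ℝ) :=
      Real.rpow_le_rpow hu0.le g2 (by norm_num)
    have g4 : (16 * (x / (x + δ))) ^ (1 / 4 : ℝ) = 2 * psi x δ := by
      rw [Real.mul_rpow (by norm_num) (by positivity)]
      have : (16 : ℝ) ^ (1 / 4 : ℝ) = 2 := by
        rw [show (16 : ℝ) = 2 ^ (4 : ℝ) by norm_num, ← Real.rpow_mul (by norm_num)]
        norm_num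
      rw [this]
      rfl
    linarith
  have hψ0 := psi_nonneg hx0 hδ.le
  have hs2 : Real.sqrt 2 ≤ 3 / 2 := by
    rw [Real.sqrt_le_left (by norm_num)]; norm_num
  have hda : (1 - δ - (1 - 2 * δ)) / a ≤ 2 * (δ / (x + δ)) := by
    have : 1 - δ - (1 - 2 * δ) = δ := by ring
    rw [this]
    calc δ / a ≤ δ / ((x + δ) / 2) := div_le_div_of_nonneg_left hδ.le (by positivity) (by linarith)
      _ = 2 * (δ / (x + δ)) := by field_simp
  have hda0 : 0 ≤ (1 - δ - (1 - 2 * δ)) / a := by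
    apply div_nonneg _ ha0.le
    linarith
  calc 120 * K * ω a * ((1 - δ - (1 - 2 * δ)) / a) * len ((1 - δ) • z) ξ
      ≤ 120 * K * (K * (ρ / x) ^ (1 / 8 : ℝ) * ω X) * (2 * (δ / (x + δ))) *
        (Real.sqrt 2 * Real.sqrt (x / ρ) * len z ξ) := by
        apply mul_le_mul _ hS (len_nonneg _ _) (by positivity)
        apply mul_le_mul _ hda hda0 (by positivity)
        exact mul_le_mul_of_nonneg_left hωa (by positivity)
    _ = 240 * K ^ 2 * ω X * len z ξ * Real.sqrt 2 * (δ / (x + δ)) *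
        ((ρ / x) ^ (1 / 8 : ℝ) * Real.sqrt (x / ρ)) := by ring
    _ ≤ 240 * K ^ 2 * ω X * len z ξ * (3 / 2) * (δ / (x + δ)) * (2 * psi x δ) := by
        apply mul_le_mul _ hpow (by positivity) (by positivity)
        apply mul_le_mul_of_nonneg_right _ (by positivity)
        exact mul_le_mul_of_nonneg_left hs2 (by positivity)
    _ = 720 * K ^ 2 * ω X * len z ξ * (δ / (x + δ) * psi x δ) := by ring
    _ ≤ 720 * K ^ 2 * ω X * len z ξ * (8 * (psi x (δ / 2) - psi x δ)) :=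
        mul_le_mul_of_nonneg_left (psi_step hx0 hδ.le) (by positivity)
    _ = 5760 * K ^ 2 * ω X * len z ξ * (psi x (δ / 2) - psi x δ) := by ring

/-- the radial derivative controls the invariant gradient -/
theorem EU (d : ℕ) : Pool.Agent.N290.RJ.EU d := by
  intro K hK
  refine ⟨5776 * K ^ 2, by positivity, ?_⟩
  intro f ω hf hω hfω z hz ξ
  obtain ⟨F, hF⟩ : ∃ F : ℝ → ℂ, F = fun t => fderiv ℂ f (t • z) (t • ξ) := ⟨_, rfl⟩
  obtain ⟨D, hD⟩ : ∃ D, D = 5760 * K ^ 2 * ω (1 - N z) * len z ξ := ⟨_, rfl⟩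
  have hω0 : 0 ≤ ω (1 - N z) := (hω.2.1 _).1
  have hl0 := len_nonneg z ξ
  have hD0 : 0 ≤ D := by rw [hD]; positivity
  have hX0 : 0 < 1 - N z := sub_pos.2 hz
  have hX1 : 1 - N z ≤ 1 := by have := N_nonneg z; linarith
  have hx0 : 0 < 1 - nm z := sub_pos.2 (mem_B_nm.1 hz)
  have hzn := mem_B_nm.1 hz
  -- the first piece
  have hfirst : ‖F (1 / 2)‖ ≤ 16 * K ^ 2 * ω (1 - N z) * len z ξ := by
    rw [hF]
    change ‖fderiv ℂ f ((1 / 2 : ℝ) • z) ((1 / 2 : ℝ) • ξ)‖ ≤ _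
    have h1 := near1 hf hω hfω (w := (1 / 2 : ℝ) • z) (by
      rw [nm_smul _ (by norm_num)]; linarith) ((1 / 2 : ℝ) • ξ)
    rw [nm_smul _ (by norm_num : (0 : ℝ) ≤ 1 / 2)] at h1
    refine h1.trans ?_
    have h2 : nm ξ ≤ Real.sqrt (1 - N z) * len z ξ := by
      unfold nm len
      rw [← Real.sqrt_mul hX0.le]
      apply Real.sqrt_le_sqrt
      unfold len2
      rw [mul_add, mul_div_cancel₀ _ hX0.ne']
      have : 0 ≤ (1 - N z) * (‖ip ξ z‖ ^ 2 / (1 - N z) ^ 2) := by positivity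
      linarith
    have h3 : ω 1 ≤ K * (1 / (1 - N z)) ^ (1 / 8 : ℝ) * ω (1 - N z) :=
      hω.2.2 1 (1 - N z) hX0 hX1 le_rfl
    have h4 : (1 / (1 - N z)) ^ (1 / 8 : ℝ) * Real.sqrt (1 - N z) ≤ 1 := by
      rw [one_div, Real.inv_rpow hX0.le, ← Real.rpow_neg hX0.le, Real.sqrt_eq_rpow,
        ← Real.rpow_add hX0]
      exact Real.rpow_le_one hX0.le hX1 (by norm_num)
    have hω1 : 0 ≤ ω 1 := (hω.2.1 1).1
    have hnn := nm_nonneg ξ
    calc 32 * ω 1 * (1 / 2 * nm ξ) = 16 * (ω 1 * nm ξ) := by ring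
      _ ≤ 16 * ((K * (1 / (1 - N z)) ^ (1 / 8 : ℝ) * ω (1 - N z)) *
          (Real.sqrt (1 - N z) * len z ξ)) := by
          apply mul_le_mul_of_nonneg_left _ (by norm_num)
          exact mul_le_mul h3 h2 hnn (by positivity)
      _ = (16 * K * ω (1 - N z) * len z ξ) *
          ((1 / (1 - N z)) ^ (1 / 8 : ℝ) * Real.sqrt (1 - N z)) := by ring
      _ ≤ (16 * K * ω (1 - N z) * len z ξ) * 1 := mul_le_mul_of_nonneg_left h4 (by positivity)
      _ ≤ 16 * K ^ 2 * ω (1 - N z) * len z ξ := by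
          rw [mul_one]
          apply mul_le_mul_of_nonneg_right _ hl0
          apply mul_le_mul_of_nonneg_right _ hω0
          nlinarith
  -- the telescoping sum
  have hstep : ∀ m : ℕ, ‖F (1 - (1 / 2) ^ (m + 1)) - F (1 / 2)‖ ≤
      D * (psi (1 - nm z) ((1 / 2) ^ (m + 2)) - psi (1 - nm z) (1 / 4)) := by
    intro m
    induction m with
    | zero =>
      have e1 : (1 : ℝ) - (1 / 2) ^ (0 + 1) = 1 / 2 := by norm_num
      have e2 : ((1 : ℝ) / 2) ^ (0 + 2) = 1 / 4 := by norm_num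
      rw [e1, e2, sub_self, sub_self, norm_zero, mul_zero]
    | succ m ih =>
      have hδ : (0 : ℝ) < (1 / 2) ^ (m + 2) := by positivity
      have hδ1 : ((1 : ℝ) / 2) ^ (m + 2) ≤ 1 / 4 := by
        rw [pow_add]
        have : ((1 : ℝ) / 2) ^ m ≤ 1 := pow_le_one₀ (by norm_num) (by norm_num)
        nlinarith
      have h1 := piece' hK hf hω hfω hz ξ hδ hδ1
      have e1 : 1 - 2 * ((1 : ℝ) / 2) ^ (m + 2) = 1 - (1 / 2) ^ (m + 1) := by
        rw [pow_succ]; ring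
      have e2 : ((1 : ℝ) / 2) ^ (m + 2) / 2 = (1 / 2) ^ (m + 1 + 2) := by
        rw [show m + 1 + 2 = (m + 2) + 1 by ring, pow_succ]; ring
      rw [e1, e2, ← hD] at h1
      have h2 : ‖F (1 - (1 / 2) ^ (m + 1 + 1)) - F (1 - (1 / 2) ^ (m + 1))‖ ≤
          D * (psi (1 - nm z) ((1 / 2) ^ (m + 1 + 2)) - psi (1 - nm z) ((1 / 2) ^ (m + 2))) := by
        rw [hF]
        exact h1
      calc ‖F (1 - (1 / 2) ^ (m + 1 + 1)) - F (1 / 2)‖ =
          ‖(F (1 - (1 / 2) ^ (m + 1 + 1)) - F (1 - (1 / 2) ^ (m + 1))) +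
            (F (1 - (1 / 2) ^ (m + 1)) - F (1 / 2))‖ := by ring_nf
        _ ≤ _ := norm_add_le _ _
        _ ≤ _ := add_le_add h2 ih
        _ = _ := by ring
  have hall : ∀ m : ℕ, ‖F (1 - (1 / 2) ^ (m + 1))‖ ≤ 5776 * K ^ 2 * ω (1 - N z) * len z ξ := by
    intro m
    have h1 := hstep m
    have h2 : psi (1 - nm z) ((1 / 2) ^ (m + 2)) - psi (1 - nm z) (1 / 4) ≤ 1 := by
      have := psi_le hx0 (δ := (1 / 2) ^ (m + 2)) (by positivity)
      have := psi_nonneg hx0 (δ := 1 / 4) (by norm_num)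
      linarith
    have h3 : ‖F (1 - (1 / 2) ^ (m + 1)) - F (1 / 2)‖ ≤ D := by
      refine h1.trans ?_
      nlinarith
    have h4 : ‖F (1 - (1 / 2) ^ (m + 1))‖ ≤ ‖F (1 - (1 / 2) ^ (m + 1)) - F (1 / 2)‖ + ‖F (1 / 2)‖ := by
      have := norm_add_le (F (1 - (1 / 2) ^ (m + 1)) - F (1 / 2)) (F (1 / 2))
      rwa [sub_add_cancel] at this
    rw [hD] at h3
    linarith
  -- the limit
  have hcd : ContDiffOn ℂ ((1 : ℕ) : WithTop ℕ∞) f (B d) :=
    Pool.Agent.Helper540.contDiffOn_of_differentiableOn B_open hf 1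
  have hfc : ContinuousOn (fderiv ℂ f) (B d) :=
    hcd.continuousOn_fderiv_of_isOpen B_open (by norm_num)
  have hFc : ContinuousAt F 1 := by
    have h1 : ContinuousAt (fderiv ℂ f) ((1 : ℝ) • z) := by
      rw [one_smul]
      exact hfc.continuousAt (B_open.mem_nhds hz)
    have h2 : ContinuousAt (fun t : ℝ => t • z) 1 := by fun_prop
    have h3 : ContinuousAt (fun t : ℝ => fderiv ℂ f (t • z)) 1 :=
      ContinuousAt.comp (g := fderiv ℂ f) (f := fun t : ℝ => t • z) h1 h2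
    have h4 : ContinuousAt (fun t : ℝ => t • ξ) 1 := by fun_prop
    rw [hF]
    exact h3.clm_apply h4
  have hlim : Tendsto (fun m : ℕ => F (1 - (1 / 2) ^ (m + 1))) atTop (𝓝 (F 1)) := by
    apply hFc.tendsto.comp
    have h1 : Tendsto (fun m : ℕ => ((1 : ℝ) / 2) ^ (m + 1)) atTop (𝓝 0) :=
      (tendsto_pow_atTop_nhds_zero_of_lt_one (by norm_num) (by norm_num)).comp (tendsto_add_atTop_nat 1)
    have h2 := h1.const_sub 1
    rwa [sub_zero] at h2
  have hfin := le_of_tendsto hlim.norm (Eventually.of_forall hall)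
  have hF1 : F 1 = fderiv ℂ f z ξ := by rw [hF]; simp
  rw [hF1] at hfin
  exact hfin

end Pool.Agent.N681.RJ
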